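import Pool.Agent.H48.SF.K0c
import Pool.Agent.H48.AQ.K0

/-!
# SQ, chapter (FF): the kernel of the parities and the Selmer group (every number field)
-/

set_option autoImplicit false
set_option linter.dupNamespace false

open scoped NumberField Classical Pointwise
open IsDedekindDomain H38.ML H63.MA

noncomputable section

namespace H48.SF.K1

open H48.KV H67.SX H38.SE
open H48.T3 hiding Ch Fib

variable {K : IntermediateField ℚ QBar} [NumberField K]

private theorem k1_rel (K : IntermediateField ℚ QBar) [NumberField K] (F : IntermediateField K QBar)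
    [NumberField F] : Equivalence fun a b : {a : Fˣ // H38.WM.Sel K F a} => ∃ c : Fˣ, a.1 = b.1 * c ^ 2 := by
  refine ⟨fun a => ⟨1, by rw [one_pow, mul_one]⟩, ?_, ?_⟩
  · rintro a b ⟨c, hc⟩
    refine ⟨c⁻¹, ?_⟩
    rw [hc, mul_assoc, ← mul_pow, mul_inv_cancel, one_pow, mul_one]
  · rintro a b c ⟨x, hx⟩ ⟨y, hy⟩
    refine ⟨y * x, ?_⟩
    rw [hx, hy, mul_assoc, mul_pow]

theorem k1_card (c : Cu K) (S : Finset (Pl K)) :
    Finite ↥(VA c ⊓ LinearMap.ker (oL c S)) ∧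
      Nat.card ↥(VA c ⊓ LinearMap.ker (oL c S)) ≤ 8 ^ S.card * selc K c.F := by
  obtain ⟨e, he⟩ := H38.WM.lab c.F c.deg
  have hex : ∀ x : ↥(VA c ⊓ LinearMap.ker (oL c S)), ∃ a : c.Fˣ, v2 a = x.1 := fun x => v2_surj x.1
  choose a ha using hex
  have hev : ∀ x (P : Pl c.F), ¬ OvS c S P → Even (ord P (a x)) := by
    intro x P hP
    have h1 : oL c S (v2 (a x)) = 0 := by
      rw [ha x]
      exact x.2.2
    have h2 : oF c S (a x) P = 0 := by
      rw [← oL_v2, h1, Pi.zero_apply]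
    have h3 : oF c S (a x) P = ((ord P (a x) : ℤ) : ZMod 2) := if_neg hP
    rw [h3, ZMod.intCast_zmod_eq_zero_iff_dvd] at h2
    rw [even_iff_two_dvd]
    exact_mod_cast h2
  have hnm : ∀ x, IsSquare (Algebra.norm K ((a x : c.Fˣ) : c.F)) := by
    intro x
    rw [← mem_VA, ha x]
    exact x.2.1
  -- the parities over `S`
  let ρ : ↥(VA c ⊓ LinearMap.ker (oL c S)) → (S → Fin 3 → ZMod 2) := fun x l i =>
    if hl : ∃ P : Pl c.F, Over P l.1 ∧ e P = i then ((ord hl.choose (a x) : ℤ) : ZMod 2) else 0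
  have hρ : ∀ x (P : Pl c.F) (l : S), Over P l.1 → ρ x l (e P) = ((ord P (a x) : ℤ) : ZMod 2) := by
    intro x P l hP
    have hl : ∃ P' : Pl c.F, Over P' l.1 ∧ e P' = e P := ⟨P, hP, rfl⟩
    have h3 : hl.choose = P := he _ _ l.1 hl.choose_spec.1 hP hl.choose_spec.2
    change (if hl : ∃ P' : Pl c.F, Over P' l.1 ∧ e P' = e P then ((ord hl.choose (a x) : ℤ) : ZMod 2) else 0) = _
    rw [dif_pos hl, h3]
  have hpar : ∀ x x', ρ x = ρ x' → ∀ P : Pl c.F, Even (ord P (a x * (a x')⁻¹)) := by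
    intro x x' hh P
    obtain ⟨l, hl⟩ := exists_below (K := K) P
    rw [ord_mul, ord_inv]
    by_cases hlS : OvS c S P
    · obtain ⟨l, hlS, hl⟩ := hlS
      have h3 := hρ x P ⟨l, hlS⟩ hl
      have h4 := hρ x' P ⟨l, hlS⟩ hl
      rw [hh, h4] at h3
      have h5 : ((ord P (a x) - ord P (a x') : ℤ) : ZMod 2) = 0 := by
        rw [Int.cast_sub, h3, sub_self]
      rw [ZMod.intCast_zmod_eq_zero_iff_dvd] at h5
      rw [← sub_eq_add_neg, even_iff_two_dvd]
      exact_mod_cast h5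
    · exact (hev x P hlS).add (hev x' P hlS).neg
  by_cases hne : Nonempty ↥(VA c ⊓ LinearMap.ker (oL c S))
  swap
  · exact absurd ⟨0⟩ hne
  let β : ↥(VA c ⊓ LinearMap.ker (oL c S)) → ↥(VA c ⊓ LinearMap.ker (oL c S)) :=
    fun x => Function.invFun ρ (ρ x)
  have hβ : ∀ x, ρ (β x) = ρ x := fun x => Function.invFun_eq ⟨x, rfl⟩
  have hβ' : ∀ x x', ρ x = ρ x' → β x = β x' := fun x x' hh => congrArg (Function.invFun ρ) hh
  have hsel : ∀ x, H38.WM.Sel K c.F (a x * (a (β x))⁻¹) := by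
    intro x
    refine ⟨?_, hpar x (β x) (hβ x).symm⟩
    have hn : Algebra.norm K (((a (β x))⁻¹ : c.Fˣ) : c.F) = (Algebra.norm K ((a (β x) : c.Fˣ) : c.F))⁻¹ := by
      refine eq_inv_of_mul_eq_one_left ?_
      rw [← map_mul, ← Units.val_mul, inv_mul_cancel, Units.val_one, map_one]
    rw [Units.val_mul, map_mul, hn]
    exact (hnm x).mul (hnm (β x)).inv
  let κ : ↥(VA c ⊓ LinearMap.ker (oL c S)) →
      Quot fun a b : {a : c.Fˣ // H38.WM.Sel K c.F a} => ∃ d : c.Fˣ, a.1 = b.1 * d ^ 2 :=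
    fun x => Quot.mk _ ⟨a x * (a (β x))⁻¹, hsel x⟩
  have hκ : ∀ x x', ρ x = ρ x' → κ x = κ x' → ∃ d : c.Fˣ, a x = a x' * d ^ 2 := by
    intro x x' hh hk
    have h3 := Quot.eqvGen_exact hk
    rw [(k1_rel K c.F).eqvGen_iff] at h3
    obtain ⟨d, hd⟩ := h3
    have hd' : a x * (a (β x))⁻¹ = a x' * (a (β x'))⁻¹ * d ^ 2 := hd
    refine ⟨d, ?_⟩
    rw [hβ' x x' hh] at hd'
    have h4 : a x = (a x * (a (β x'))⁻¹) * a (β x') := (inv_mul_cancel_right _ _).symm
    rw [h4, hd', mul_right_comm, mul_assoc (a x'), inv_mul_cancel, mul_one]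
  have hinj : Function.Injective fun x => (ρ x, κ x) := by
    intro x x' hh
    have h3 : ρ x = ρ x' := congrArg Prod.fst hh
    have h4 : κ x = κ x' := congrArg Prod.snd hh
    have h5 := hκ x x' h3 h4
    rw [← v2_eq, ha x, ha x'] at h5
    exact Subtype.ext h5
  have hfin1 := H48.AQ.sel_fin K c.F
  have h6 := Nat.card_le_card_of_injective _ hinj
  rw [Nat.card_prod, Nat.card_fun, Nat.card_fun, Nat.card_zmod, Nat.card_fin,
    Nat.card_eq_fintype_card (α := S), Fintype.card_coe] at h6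
  have h7 : (2 : ℕ) ^ 3 = 8 := by norm_num
  rw [h7] at h6
  exact ⟨Finite.of_injective _ hinj, h6⟩

theorem k0_card (c : Cu K) (S : Finset (Pl K)) :
    Nat.card ↥((VA c ⊓ VL c S) ⊓ LinearMap.ker (oL c S)) ≤ 8 ^ S.card * selc K c.F := by
  obtain ⟨hf, hc⟩ := k1_card c S
  have hle : (VA c ⊓ VL c S) ⊓ LinearMap.ker (oL c S) ≤ VA c ⊓ LinearMap.ker (oL c S) :=
    inf_le_inf_right _ inf_le_left
  exact (Nat.card_le_card_of_injective (Submodule.inclusion hle)
    (Submodule.inclusion_injective hle)).trans hc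

end H48.SF.K1
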