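import Pool.Agent.H48.SF.QcP
import Pool.Agent.H48.AQ.Lt

/-!
# SQ, chapter (FF): elements with trivial Kummer character over `S`; functionals on the parities (every number field `K`)
-/

set_option autoImplicit false
set_option linter.dupNamespace false

open scoped NumberField Classical Pointwise
open IsDedekindDomain H38.ML H63.MA

noncomputable section

namespace H48.SF.K1

open H48.KV H67.SX H38.SE
open H48.T3 hiding Ch Fib

variable {K : IntermediateField ℚ QBar} [NumberField K]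

private theorem lta_pl (c : Cu K) {𝔓 : Ideal (𝓞 QBar)} (hp : 𝔓.IsPrime) {v : Pl K}
    (hv : 𝔓.under (𝓞 K) = v.asIdeal) : ∃ P : Pl c.F, 𝔓.under (𝓞 c.F) = P.asIdeal ∧ Over P v := by
  have hover : (𝔓.under (𝓞 c.F)).comap (algebraMap (𝓞 K) (𝓞 c.F)) = v.asIdeal := by
    rw [← hv]
    exact Ideal.ext fun a => Iff.rfl
  have hne : 𝔓.under (𝓞 c.F) ≠ ⊥ := by
    intro h
    apply v.ne_bot
    rw [← hover, h, ← RingHom.ker_eq_comap_bot]
    exact (RingHom.injective_iff_ker_eq_bot _).mp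
      (NumberField.RingOfIntegers.algebraMap.injective K c.F)
  exact ⟨⟨𝔓.under (𝓞 c.F), Ideal.IsPrime.comap _, hne⟩, rfl, hover⟩

omit [NumberField K] in
private theorem lta_dec (c : Cu K) {𝔓 : Ideal (𝓞 QBar)} (σ : Gal(QBar/c.F))
    (hσ : ∀ x : 𝓞 QBar, (σ.restrictScalars K : Gal(QBar/K)) • x ∈ 𝔓 ↔ x ∈ 𝔓) :
    σ ∈ dec (K := c.F) 𝔓 := fun x => hσ x

theorem ltr_ps (c : Cu K) (S : Finset (Pl K)) (D : H48.AQ.RN c.F)
    (hD : ∀ P, OvS c S P → P ∈ D.S0) (x : c.Fˣ) (hx : PS 2 (-1 : c.F) D.S0 x) :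
    LTr c S x := by
  rintro 𝔓 hp ⟨v, hvS, hv⟩ σ hσ
  have := alg_cl c.F
  obtain ⟨P, hP, hPv⟩ := lta_pl c hp hv
  obtain ⟨Q0⟩ := exists_DP c.F QBar
  let Q' : DP c.F QBar :=
    { P := Function.update Q0.P P 𝔓
      prime := fun w => by
        by_cases hw : w = P
        · subst hw
          rw [Function.update_self]
          exact hp
        · rw [Function.update_of_ne hw]
          exact Q0.prime w
      under := fun w => by
        by_cases hw : w = P
        · subst hw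
          rw [Function.update_self]
          exact hP
        · rw [Function.update_of_ne hw]
          exact Q0.under w }
  have hQ' : Q'.P P = 𝔓 := by
    change Function.update Q0.P P 𝔓 P = 𝔓
    exact Function.update_self P 𝔓 Q0.P
  refine H48.AQ.rn_triv D Q' x hx P
    (hD P ⟨v, hvS, hPv⟩) σ ?_
  rw [hQ']
  exact lta_dec c σ hσ

private theorem lta_le (c : Cu K) (S : Finset (Pl K)) {v : Pl K} (hv : v ∈ S) {P : Pl c.F}
    (hP : Over P v) : H57.LI.md (mS S) c.F ≤ Ideal.span {8} * P.asIdeal := by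
  unfold H57.LI.md mS
  rw [Ideal.map_mul]
  refine Ideal.mul_mono ?_ ?_
  · rw [Ideal.map_span, Set.image_singleton, map_ofNat]
  · rw [Ideal.map_le_iff_le_comap]
    have h1 : (∏ v ∈ S, v.asIdeal) ≤ v.asIdeal :=
      Ideal.le_of_dvd (Finset.dvd_prod_of_mem (fun v : Pl K => v.asIdeal) hv)
    exact h1.trans hP.ge

theorem ltr_ray (c : Cu K) (S : Finset (Pl K)) (x : c.Fˣ) (a : 𝓞 c.F)
    (hxa : (x : c.F) = algebraMap (𝓞 c.F) c.F a) (ha : a - 1 ∈ H57.LI.md (mS S) c.F) :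
    LTr c S x := by
  rintro 𝔓 hp ⟨v, hvS, hv⟩ σ hσ
  have := alg_cl c.F
  obtain ⟨P, hP, hPv⟩ := lta_pl c hp hv
  obtain ⟨b, hb, hb8⟩ := Ideal.mem_span_singleton_mul.1 (lta_le c S hvS hPv ha)
  have h2 : (x : c.F) - 1 = 8 * algebraMap (𝓞 c.F) c.F b := by
    rw [hxa]
    have h3 := congrArg (algebraMap (𝓞 c.F) c.F) hb8
    rw [map_mul, map_sub, map_one, map_ofNat] at h3
    exact h3.symm
  have hb1 : P.valuation c.F (algebraMap (𝓞 c.F) c.F b) < 1 :=
    (P.valuation_lt_one_iff_mem b).2 hb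
  have h4 : P.valuation c.F ((x : c.F) - 1) < P.valuation c.F (((2 : ℕ) : c.F) ^ 2) := by
    have h5 : (8 : c.F) * algebraMap (𝓞 c.F) c.F b =
        ((2 : ℕ) : c.F) ^ 2 * algebraMap (𝓞 c.F) c.F (2 * b) := by
      rw [map_mul, map_ofNat]
      push_cast
      ring
    have h6 : P.valuation c.F (algebraMap (𝓞 c.F) c.F (2 * b)) < 1 :=
      (P.valuation_lt_one_iff_mem _).2 (P.asIdeal.mul_mem_left 2 hb)
    have h7 : P.valuation c.F (((2 : ℕ) : c.F) ^ 2) ≠ 0 := by
      rw [Valuation.ne_zero_iff]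
      norm_num
    rw [h2, h5, map_mul]
    exact mul_lt_of_lt_one_right (zero_lt_iff.2 h7) h6
  have h8 := cl_of_val (p := 2) P 𝔓 hp hP x h4
  have h9 : 𝔓 ≠ ⊥ := by
    intro h0
    apply P.ne_bot
    rw [← hP, h0, Ideal.under, ← RingHom.ker_eq_comap_bot]
    exact (RingHom.injective_iff_ker_eq_bot _).mp
      (NumberField.RingOfIntegers.algebraMap.injective c.F QBar)
  exact cl_kk Nat.prime_two (neg_one_prim c.F) 𝔓 hp h9 x h8 σ (lta_dec c σ hσ)

private theorem qc_over (c : Cu K) (S : Finset (Pl K)) (h2 : ∀ v : Pl K, Above 2 v → v ∈ S) (P : Pl c.F)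
    (hP : P.asIdeal ∣ H57.LI.md (mS S) c.F) : OvS c S P := by
  obtain ⟨l, hl⟩ := exists_below (K := K) P
  refine ⟨l, ?_, hl⟩
  have h1 : mS S ≤ l.asIdeal := by
    have h3 := Ideal.le_of_dvd hP
    unfold H57.LI.md at h3
    rw [Ideal.map_le_iff_le_comap] at h3
    exact h3.trans (le_of_eq hl)
  unfold mS at h1
  rcases (Ideal.IsPrime.mul_le l.isPrime).1 h1 with h3 | h3
  · apply h2
    have h4 : (8 : 𝓞 K) ∈ l.asIdeal := h3 (Ideal.mem_span_singleton_self 8)
    have h5 : ((2 : 𝓞 K)) ^ 3 ∈ l.asIdeal := by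
      have h6 : (2 : 𝓞 K) ^ 3 = 8 := by norm_num
      rw [h6]
      exact h4
    have h7 := l.isPrime.mem_of_pow_mem 3 h5
    unfold Above
    exact_mod_cast h7
  · obtain ⟨v, hv, h4⟩ := (Ideal.IsPrime.prod_le l.isPrime).1 h3
    have h5 : v = l := HeightOneSpectrum.ext (v.isMaximal.eq_of_le l.isPrime.ne_top h4)
    rw [← h5]
    exact hv

theorem qc_psi (c : Cu K) (S : Finset (Pl K))
    (h2 : ∀ v : Pl K, Above 2 v → v ∈ S) (ψ : (Pl c.F → ZMod 2) →ₗ[ZMod 2] ZMod 2)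
    (hψ : ∀ x ∈ VA c ⊓ VL c S, ψ (oL c S x) = 0) : QC c S fun P => ψ (gv c S P) := by
  refine ⟨⟨fun P hP => ?_, fun x a hxa ha => ?_⟩, fun l => ?_⟩
  · show ψ (gv c S P) = 0
    rw [gv_zero c S P (qc_over c S h2 P hP), map_zero]
  · have hx : LTr c S x := ltr_ray c S x a hxa ha
    have h3 := hψ (v2 (x * inc K c.F (Nm K c.F x)))
      ⟨(mem_VA c _).2 (og_sq c x), (mem_VL c S _).2 (ltr_mul c S hx (ltr_nrm c S x hx))⟩
    rw [oL_v2, og_sum c S x (finite_ord x).toFinset (fun P hP => by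
      by_contra h
      exact hP ((finite_ord x).mem_toFinset.2 h)), map_sum] at h3
    rw [finsum_eq_sum_of_support_subset (s := (finite_ord x).toFinset)]
    · rw [← h3]
      refine Finset.sum_congr rfl fun P _ => ?_
      rw [map_smul, smul_eq_mul, mul_comm]
    · intro P hP
      rw [Finset.mem_coe, (finite_ord x).mem_toFinset]
      intro h
      apply hP
      show ψ (gv c S P) * ((ord P x : ℤ) : ZMod 2) = 0
      have h0 : ord P x = 0 := h
      rw [h0, Int.cast_zero, mul_zero]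
  · show ∑ P ∈ ov c l, (er c P : ZMod 2) * ψ (gv c S P) = 0
    have h1 := congrArg ψ (gv_tri c S l)
    rw [map_sum, map_zero] at h1
    rw [← h1]
    refine Finset.sum_congr rfl fun P _ => ?_
    rw [map_smul, smul_eq_mul]

end H48.SF.K1
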