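import Pool.Agent.H48.SF.TyB
import Pool.Agent.H48.SQ.Te

/-!
# SQ, chapter (FF): local types and classes (every number field)
-/

set_option autoImplicit false
set_option linter.dupNamespace false

open scoped NumberField Classical Pointwise
open IsDedekindDomain H38.ML H63.MA

noncomputable section

namespace H48.SF.K1

open H48.KV H67.SX H38.SE
open H48.T3 hiding Ch Fib

variable {K : IntermediateField ℚ QBar} [NumberField K] {G : Type} [Group G] {k : KS G}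
  {χ : Gal(QBar/K) →* Equiv.Perm (Fin 3)} {c : Cu K} {t : Fin 3 → Gal(QBar/K)}

omit [NumberField K] in
private theorem tyb_sub {φ : Gal(QBar/K) →* G} (h : φ ∈ SL k χ) : φ ∈ LW k χ := ⟨h.1, h.2.2⟩

/-- the class in the quotient -/
private def tyq {cl : (Gal(QBar/K) →* G) → V2 c.F} (hcl : ClD k χ c cl) (S : Finset (Pl K))
    (φ : Gal(QBar/K) →* G) (h : φ ∈ LW k χ) : QA (VA c) (VA c ⊓ VL c S) :=
  Submodule.Quotient.mk ⟨cl φ, hcl.va φ h⟩

private theorem tyq_iff (H : Std χ c t) {cl : (Gal(QBar/K) →* G) → V2 c.F} (hcl : ClD k χ c cl)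
    (S : Finset (Pl K)) (Q : DP K QBar) (φ φ' : Gal(QBar/K) →* G) (h : φ ∈ LW k χ)
    (h' : φ' ∈ LW k χ) : cl φ - cl φ' ∈ VA c ⊓ VL c S ↔ Lq k S Q φ φ' := by
  rw [Submodule.mem_inf, cl_loc H hcl S Q φ φ' h h']
  exact ⟨fun h1 => h1.2, fun h1 => ⟨Submodule.sub_mem _ (hcl.va φ h) (hcl.va φ' h'), h1⟩⟩

private theorem tyq_eq (H : Std χ c t) {cl : (Gal(QBar/K) →* G) → V2 c.F} (hcl : ClD k χ c cl)
    (S : Finset (Pl K)) (Q : DP K QBar) (φ φ' : Gal(QBar/K) →* G) (h : φ ∈ LW k χ)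
    (h' : φ' ∈ LW k χ) : tyq hcl S φ h = tyq hcl S φ' h' ↔ Lq k S Q φ φ' := by
  unfold tyq
  rw [Submodule.Quotient.eq, Submodule.mem_comap, ← tyq_iff H hcl S Q φ φ' h h']
  rfl

/-- the injection of the local types into the quotient -/
private def tym (H : Std χ c t) {cl : (Gal(QBar/K) →* G) → V2 c.F} (hcl : ClD k χ c cl)
    (S : Finset (Pl K)) (Q : DP K QBar) (p : (Gal(QBar/K) →* G) → Prop) :
    (Quot fun φ φ' : {φ : Gal(QBar/K) →* G // φ ∈ SL k χ ∧ p φ} => Lq k S Q φ.1 φ'.1) →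
      QA (VA c) (VA c ⊓ VL c S) :=
  Quot.lift (fun x => tyq hcl S x.1 (tyb_sub x.2.1)) fun x y h =>
    (tyq_eq H hcl S Q x.1 y.1 (tyb_sub x.2.1) (tyb_sub y.2.1)).2 h

private theorem tym_mk (H : Std χ c t) {cl : (Gal(QBar/K) →* G) → V2 c.F} (hcl : ClD k χ c cl)
    (S : Finset (Pl K)) (Q : DP K QBar) (p : (Gal(QBar/K) →* G) → Prop)
    (x : {φ : Gal(QBar/K) →* G // φ ∈ SL k χ ∧ p φ}) :
    tym H hcl S Q p (Quot.mk _ x) = tyq hcl S x.1 (tyb_sub x.2.1) := rfl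

private theorem tym_inj (H : Std χ c t) {cl : (Gal(QBar/K) →* G) → V2 c.F} (hcl : ClD k χ c cl)
    (S : Finset (Pl K)) (Q : DP K QBar) (p : (Gal(QBar/K) →* G) → Prop) :
    Function.Injective (tym H hcl S Q p) := by
  intro u v huv
  obtain ⟨x, rfl⟩ := Quot.exists_rep u
  obtain ⟨y, rfl⟩ := Quot.exists_rep v
  rw [tym_mk, tym_mk, tyq_eq H hcl S Q] at huv
  exact Quot.sound huv

private theorem ty_fin (c : Cu K) (S : Finset (Pl K)) :
    Finite (QA (VA c) (VA c ⊓ VL c S)) := by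
  obtain ⟨T, _, _, _, hT⟩ := tex c S
  exact (la_card hT).1

theorem nty_rep (H : Std χ c t) {cl : (Gal(QBar/K) →* G) → V2 c.F}
    (hcl : ClD k χ c cl) (S : Finset (Pl K)) (Q : DP K QBar) (p : (Gal(QBar/K) →* G) → Prop)
    (hp : Inv S Q p) :
    ∃ Hd : Finset (V2 c.F), Hd.card = nty k S Q χ p ∧ (∀ x ∈ Hd, x ∈ VA c) ∧
      (∀ x ∈ Hd, ∀ x' ∈ Hd, x - x' ∈ VA c ⊓ VL c S → x = x') ∧
      ∀ φ ∈ SL k χ, p φ ↔ ∃ x ∈ Hd, cl φ - x ∈ VA c ⊓ VL c S := by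
  classical
  have hfin := ty_fin c S
  have hinj := tym_inj H hcl S Q p
  have hfq := Finite.of_injective _ hinj
  have hft := Fintype.ofFinite
    (Quot fun φ φ' : {φ : Gal(QBar/K) →* G // φ ∈ SL k χ ∧ p φ} => Lq k S Q φ.1 φ'.1)
  obtain ⟨rp, hrp⟩ : ∃ rp : (Quot fun φ φ' : {φ : Gal(QBar/K) →* G // φ ∈ SL k χ ∧ p φ} =>
      Lq k S Q φ.1 φ'.1) → {φ : Gal(QBar/K) →* G // φ ∈ SL k χ ∧ p φ},
      ∀ u, Quot.mk _ (rp u) = u := ⟨fun u => Quot.out u, fun u => Quot.out_eq u⟩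
  have hsame : ∀ u v, cl (rp u).1 - cl (rp v).1 ∈ VA c ⊓ VL c S → u = v := by
    intro u v h
    rw [tyq_iff H hcl S Q _ _ (tyb_sub (rp u).2.1) (tyb_sub (rp v).2.1)] at h
    rw [← hrp u, ← hrp v]
    exact Quot.sound h
  refine ⟨Finset.univ.image fun u => cl (rp u).1, ?_, ?_, ?_, ?_⟩
  · rw [Finset.card_image_of_injective]
    · unfold nty
      rw [Nat.card_eq_fintype_card, Finset.card_univ]
    · intro u v huv
      apply hsame
      have h1 : cl (rp u).1 = cl (rp v).1 := huv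
      rw [h1, sub_self]
      exact Submodule.zero_mem _
  · intro x hx
    obtain ⟨u, _, rfl⟩ := Finset.mem_image.1 hx
    exact hcl.va _ (tyb_sub (rp u).2.1)
  · intro x hx x' hx' h
    obtain ⟨u, _, rfl⟩ := Finset.mem_image.1 hx
    obtain ⟨v, _, rfl⟩ := Finset.mem_image.1 hx'
    rw [hsame u v h]
  · intro φ hφ
    constructor
    · intro hpφ
      refine ⟨cl (rp (Quot.mk _ ⟨φ, hφ, hpφ⟩)).1, Finset.mem_image_of_mem _ (Finset.mem_univ _), ?_⟩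
      have h1 := congrArg (tym H hcl S Q p) (hrp (Quot.mk _ ⟨φ, hφ, hpφ⟩))
      rw [tym_mk, tym_mk, tyq_eq H hcl S Q] at h1
      rw [tyq_iff H hcl S Q _ _ (tyb_sub hφ) (tyb_sub (rp _).2.1)]
      exact lq_symm h1
    · rintro ⟨x, hx, h⟩
      obtain ⟨u, _, rfl⟩ := Finset.mem_image.1 hx
      rw [tyq_iff H hcl S Q _ _ (tyb_sub hφ) (tyb_sub (rp u).2.1)] at h
      refine (hp φ (rp u).1 hφ.1 hφ.2.1 (rp u).2.1.1 (rp u).2.1.2.1 fun v hv => ?_).2 (rp u).2.2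
      obtain ⟨δ, _, hδ⟩ := h v hv
      exact ⟨δ, hδ⟩

theorem nty_all (H : Std χ c t) {cl : (Gal(QBar/K) →* G) → V2 c.F}
    (hcl : ClD k χ c cl) (S : Finset (Pl K)) (Q : DP K QBar) :
    nty k S Q χ (fun _ => True) = Nat.card (QA (VA c) (VA c ⊓ VL c S)) ∧
      0 < nty k S Q χ (fun _ => True) := by
  have hfin := ty_fin c S
  have hbij : Function.Bijective (tym H hcl S Q (fun _ => True)) := by
    refine ⟨tym_inj H hcl S Q _, fun z => ?_⟩
    obtain ⟨⟨x, hx⟩, rfl⟩ := Submodule.Quotient.mk_surjective _ z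
    obtain ⟨φ, hφ, rfl⟩ := hcl.sj x hx
    obtain ⟨φ', hφ', hl⟩ := ax_surj (k := k) H Q S (fun _ => φ) (fun _ _ => hφ.1) (fun v _ σ _ => by
      rw [← hφ.2]
      rfl)
    refine ⟨Quot.mk _ ⟨φ', hφ', trivial⟩, ?_⟩
    rw [tym_mk]
    exact (tyq_eq H hcl S Q φ' φ (tyb_sub hφ') hφ).2 hl
  have h1 : nty k S Q χ (fun _ => True) = Nat.card (QA (VA c) (VA c ⊓ VL c S)) :=
    Nat.card_eq_of_bijective _ hbij
  refine ⟨h1, ?_⟩
  rw [h1]
  exact Nat.card_pos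

theorem nty_le (H : Std χ c t) {cl : (Gal(QBar/K) →* G) → V2 c.F}
    (hcl : ClD k χ c cl) (S : Finset (Pl K)) (Q : DP K QBar) (p : (Gal(QBar/K) →* G) → Prop)
    (hp : Inv S Q p) : nty k S Q χ p ≤ nty k S Q χ (fun _ => True) := by
  have hfin := ty_fin c S
  rw [(nty_all H hcl S Q).1]
  exact Nat.card_le_card_of_injective _ (tym_inj H hcl S Q p)

end H48.SF.K1
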