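import Pool.Agent.H48.SF.TyC
import Pool.Agent.H48.SQ.Tb

/-!
# SQ, chapter (FF): finitely many local types (every number field)
-/

set_option autoImplicit false
set_option linter.dupNamespace false

open scoped NumberField Classical Pointwise
open IsDedekindDomain H38.ML H63.MA

noncomputable section

namespace H48.SF.K1

open H48.KV H67.SX H38.SE
open H48.T3 hiding Ch Fib

variable {K : IntermediateField ℚ QBar} [NumberField K] {G : Type} [Group G]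

private theorem tyc_fin (k : KS G) (Q : DP K QBar)
    (S : Finset (Pl K)) (ds : (Gal(QBar/K) →* G) → ℕ) (hds : LocInv Q S ds)
    {χ : Gal(QBar/K) →* Equiv.Perm (Fin 3)} {c : Cu K} {t : Fin 3 → Gal(QBar/K)} (H : Std χ c t) :
    ∃ D : Finset ℕ, ∀ φ ∈ SL k χ, ds φ ∈ D := by
  obtain ⟨cl, hcl⟩ := cl_ex (k := k) H
  have h1 := (nty_all H hcl S Q).2
  unfold nty at h1
  have h2 := Nat.finite_of_card_ne_zero h1.ne'
  obtain ⟨F, hF⟩ : ∃ F : (Quot fun φ φ' : {φ : Gal(QBar/K) →* G // φ ∈ SL k χ ∧ True} =>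
      Lq k S Q φ.1 φ'.1) → ℕ, ∀ φ : {φ : Gal(QBar/K) →* G // φ ∈ SL k χ ∧ True}, F (Quot.mk _ φ) = ds φ.1 := by
    refine ⟨Quot.lift (fun φ => ds φ.1) ?_, fun φ => rfl⟩
    intro φ φ' h
    refine hds φ.1 φ'.1 φ.2.1.2.1 φ.2.1.1 φ'.2.1.2.1 φ'.2.1.1 fun v hv => ?_
    obtain ⟨δ, -, h3⟩ := h v hv
    exact ⟨δ, h3⟩
  have h3 : (Set.range F).Finite := Set.finite_range F
  refine ⟨h3.toFinset, fun φ hφ => ?_⟩
  rw [Set.Finite.mem_toFinset]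
  exact ⟨Quot.mk _ ⟨φ, hφ, trivial⟩, hF _⟩

theorem ds_fin (k : KS G) (Q : DP K QBar) (S : Finset (Pl K))
    (hL : LFin K S Q) (ds : (Gal(QBar/K) →* G) → ℕ) (hds : LocInv Q S ds) :
    ∃ Df : Finset ℕ, ∀ φ : Gal(QBar/K) →* G, FT φ → Function.Surjective φ → ds φ ∈ Df := by
  obtain ⟨T, hT⟩ := hL
  choose X t0 hX hF hS using std_cu (K := K)
  choose D hD using fun c : Cu K => tyc_fin k Q S ds hds (hS c)
  refine ⟨T.biUnion D, fun φ hft hsu => ?_⟩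
  have hpi : Function.Surjective k.pi := by
    intro σ
    obtain ⟨g, hg, -⟩ := k.ex σ 0 (by simp)
    exact ⟨g, hg⟩
  have hχ : k.pi.comp φ ∈ Ch K := ⟨H38.ML.ft_comp _ _ hft, by
    rw [MonoidHom.coe_comp]
    exact hpi.comp hsu⟩
  obtain ⟨c, hc⟩ := chc _ hχ
  obtain ⟨t, H⟩ := std_ex _ hχ c hc
  obtain ⟨c₀, hc₀, hE⟩ := hT c
  obtain ⟨e, he⟩ := leq_perm H (hS c₀) Q S (leq_symm S Q c₀ c hE)
  obtain ⟨s, hs, -⟩ := ks_sec k
  obtain ⟨φ', hφ', h5⟩ := apx (k := k) (hS c₀) hs Q S e he φ ⟨hft, rfl⟩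
  have h6 : ds φ' = ds φ := hds φ' φ hφ'.2.1 hφ'.1 hsu hft fun v hv => by
    obtain ⟨δ, -, h7⟩ := h5 v hv
    exact ⟨_, h7⟩
  rw [← h6]
  exact Finset.mem_biUnion.2 ⟨c₀, hc₀, hD c₀ φ' hφ'⟩

theorem nty_bd (k : KS G) (Q : DP K QBar) (S : Finset (Pl K))
    (hL : LFin K S Q) : ∃ C : ℕ, ∀ (χ : Gal(QBar/K) →* Equiv.Perm (Fin 3)) (c : Cu K)
      (t : Fin 3 → Gal(QBar/K)), Std χ c t → nty k S Q χ (fun _ => True) ≤ C := by
  obtain ⟨T, hT⟩ := hL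
  choose X t0 hX hF hS using std_cu (K := K)
  refine ⟨T.sup fun c => nty k S Q (X c) fun _ => True, fun χ c t H => ?_⟩
  obtain ⟨c₀, hc₀, hE⟩ := hT c
  rw [← nty_inv k (hS c₀) H Q S hE (fun _ => True) fun _ _ _ _ _ _ _ => Iff.rfl]
  exact Finset.le_sup (f := fun c => nty k S Q (X c) fun _ => True) hc₀

theorem nty_sum (k : KS G) (Q : DP K QBar) (S : Finset (Pl K))
    (ds : (Gal(QBar/K) →* G) → ℕ) (hds : LocInv Q S ds)
    (χ : Gal(QBar/K) →* Equiv.Perm (Fin 3)) (c : Cu K) (t : Fin 3 → Gal(QBar/K))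
    (H : Std χ c t) : ∃ d : ℕ, 0 < nty k S Q χ (fun φ => ds φ = d) := by
  obtain ⟨cl, hcl⟩ := cl_ex (k := k) H
  have h1 := (nty_all H hcl S Q).2
  unfold nty at h1
  obtain ⟨q⟩ := (Nat.card_pos_iff.1 h1).1
  obtain ⟨φ, -⟩ := Quot.exists_rep q
  refine ⟨ds φ.1, ?_⟩
  obtain ⟨Hd, h2, -, -, h3⟩ := nty_rep H hcl S Q (fun φ' => ds φ' = ds φ.1) (inv_ds hds _)
  obtain ⟨x, hx, -⟩ := (h3 φ.1 φ.2.1).1 rfl
  rw [← h2]
  exact Finset.card_pos.2 ⟨x, hx⟩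

end H48.SF.K1
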