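import Pool.Agent.H48.SF.TKp
import Pool.Agent.H48.SQ.Ts
import Pool.Agent.H12.SQ.Defs

/-!
# SQ, chapter (FF): the ratio `#AT / #IT` (every number field)
-/

set_option autoImplicit false
set_option linter.dupNamespace false

open scoped NumberField Classical Pointwise
open IsDedekindDomain H38.ML H63.MA

noncomputable section

namespace H48.SF.K1

open H48.KV H67.SX H38.SE
open H48.T3 hiding Ch Fib

variable {K : IntermediateField ℚ QBar} [NumberField K]

/-- the local factor -/
def kapI (c : Cu K) (S : Finset (Pl K)) : ℕ :=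
  2 ^ (∑ v ∈ S, ((ov c v).card - 1)) *
    2 ^ (Fintype.card (NumberField.InfinitePlace c.F) - Fintype.card (NumberField.InfinitePlace K))

theorem inf_le_inf (c : Cu K) : Fintype.card (NumberField.InfinitePlace K) ≤
    Fintype.card (NumberField.InfinitePlace c.F) := by
  refine Fintype.card_le_of_surjective
    (fun w : NumberField.InfinitePlace c.F => w.comap (algebraMap K c.F)) ?_
  exact NumberField.InfinitePlace.comap_surjective

/-- the number of the infinite places of `F` -/
theorem card_ni (c : Cu K) : Fintype.card (NumberField.InfinitePlace c.F) =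
    ∑ v : NumberField.InfinitePlace K, H12.SQ.ni c v := by
  rw [← Finset.card_univ, Finset.card_eq_sum_card_fiberwise
    (f := fun w : NumberField.InfinitePlace c.F => w.comap (algebraMap K c.F)) (t := Finset.univ)
    (fun w _ => Finset.mem_coe.2 (Finset.mem_univ _))]
  refine Finset.sum_congr rfl fun v _ => ?_
  unfold H12.SQ.ni
  rw [← Set.ncard_coe_finset]
  congr 1
  ext w
  simp

theorem tkp (c : Cu K) (S T : Finset (Pl K)) (hST : S ⊆ T) (hK : ClOne T)
    (TF : Finset (Pl c.F)) (hTF : ∀ P, P ∈ TF ↔ OvS c T P) (hF : ClOne TF) :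
    Nat.card (AT c S T) = kapI c S * Nat.card (IT c S T) := by
  obtain ⟨-, h1⟩ := tsp c S T hST hK TF hTF hF
  obtain ⟨k, hk, -, hk2⟩ := H48.AQ.tu_card K T
  obtain ⟨k', hk', -, hk2'⟩ := H48.AQ.tu_card c.F TF
  obtain ⟨TF', hTF', hc'⟩ := tov_card c T
  have hTT : TF' = TF := by
    ext P
    rw [hTF', hTF]
  rw [hTT] at hc'
  have hle := inf_le_inf c
  have hsum : ∑ l ∈ T, (ov c l).card = ∑ l ∈ T, ((ov c l).card - 1) + T.card := by
    rw [Finset.card_eq_sum_ones, ← Finset.sum_add_distrib]
    refine Finset.sum_congr rfl fun l _ => ?_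
    have h2 : 1 ≤ (ov c l).card := Finset.card_pos.2 (ov_ne c l)
    omega
  have hsplit : ∑ l ∈ T, ((ov c l).card - 1) = ∑ l ∈ S, ((ov c l).card - 1) +
      ∑ l ∈ T.filter (fun l => l ∉ S), ((ov c l).card - 1) := by
    rw [← Finset.sum_filter_add_sum_filter_not T (fun l => l ∈ S)]
    congr 1
    refine Finset.sum_congr ?_ fun _ _ => rfl
    ext l
    rw [Finset.mem_filter]
    exact ⟨fun h => h.2, fun h => ⟨hST h, h⟩⟩
  rw [hk2, hk2'] at h1
  rw [(tin c S T).2, kapI, ← pow_add, ← pow_add]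
  have hkk : k' = (∑ v ∈ S, ((ov c v).card - 1) + (Fintype.card (NumberField.InfinitePlace c.F) -
      Fintype.card (NumberField.InfinitePlace K)) +
      ∑ l ∈ T.filter (fun l => l ∉ S), ((ov c l).card - 1)) + k := by
    omega
  rw [hkk, pow_add] at h1
  exact Nat.eq_of_mul_eq_mul_right (by positivity) h1

theorem inf_le_deg (c : Cu K) : Fintype.card (NumberField.InfinitePlace c.F) ≤
    3 * Module.finrank ℚ K := by
  have h1 : Module.finrank ℚ c.F = Module.finrank ℚ K * 3 := by
    rw [← c.deg, Module.finrank_mul_finrank]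
  have h2 := NumberField.InfinitePlace.card_add_two_mul_card_eq_rank c.F
  have h3 := NumberField.InfinitePlace.card_eq_nrRealPlaces_add_nrComplexPlaces (K := c.F)
  omega

theorem kap_pos (c : Cu K) (S : Finset (Pl K)) : 0 < kapI c S ∧
    kapI c S ≤ 4 ^ S.card * 2 ^ (3 * Module.finrank ℚ K) := by
  unfold kapI
  refine ⟨by positivity, Nat.mul_le_mul ?_ (Nat.pow_le_pow_right (by norm_num)
    ((Nat.sub_le _ _).trans (inf_le_deg c)))⟩
  have h1 : ∑ v ∈ S, ((ov c v).card - 1) ≤ ∑ _v ∈ S, 2 := by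
    refine Finset.sum_le_sum fun v _ => ?_
    have h2 := ov_le c v
    omega
  rw [Finset.sum_const, smul_eq_mul] at h1
  calc 2 ^ (∑ v ∈ S, ((ov c v).card - 1)) ≤ 2 ^ (S.card * 2) := Nat.pow_le_pow_right (by norm_num) h1
    _ = 4 ^ S.card := by
      rw [mul_comm, pow_mul]
      norm_num

theorem kap_eq (c c' : Cu K) (S : Finset (Pl K)) (h : ∀ v ∈ S, c.np v = c'.np v)
    (hi : ∀ v, H12.SQ.ni c v = H12.SQ.ni c' v) : kapI c S = kapI c' S := by
  unfold kapI
  rw [card_ni, card_ni, Finset.sum_congr rfl fun v _ => hi v]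
  congr 2
  refine Finset.sum_congr rfl fun v hv => ?_
  rw [← np_ov, ← np_ov, h v hv]

end H48.SF.K1
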